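import Mathlib

/-!
Definitions for MP_4baaa2_an: linear convexity, approximability from inside, and the domains
(tetrablock, pentablock, hexablock, quotients of the Lie ball, Hartogs domains over them).
-/

open scoped ContDiff ComplexConjugate

namespace Pool.Agent.MP_4baaa2_an

section General

variable {E : Type} [NormedAddCommGroup E] [NormedSpace ℝ E] [NormedSpace ℂ E]

/-- `D` is linearly convex: every point outside `D` lies on a complex affine hyperplane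
`{ζ | ℓ ζ = ℓ z}` (`ℓ ≠ 0` complex linear) which is disjoint from `D`. -/
def LinConvex (D : Set E) : Prop :=
  ∀ z ∉ D, ∃ ℓ : E →L[ℂ] ℂ, ℓ ≠ 0 ∧ ∀ ζ ∈ D, ℓ ζ ≠ ℓ z

/-- `{Φ < 0}` is a bounded linearly convex domain containing `0`, the function `Φ` is `C^∞`
on the whole space and its gradient does not vanish on the boundary of `{Φ < 0}`. -/
structure SmoothLC (Φ : E → ℝ) : Prop where
  smooth : ContDiff ℝ ∞ Φ
  conn : IsConnected {z | Φ z < 0}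
  bdd : Bornology.IsBounded {z | Φ z < 0}
  lc : LinConvex {z | Φ z < 0}
  zero : Φ 0 < 0
  grad : ∀ z ∈ frontier {z | Φ z < 0}, fderiv ℝ Φ z ≠ 0

/-- `D` is approximable from inside: it is the union of domains `D_j = {Φ_j < 0}` as in
`SmoothLC` with `closure D_j ⊆ D_{j+1}`. -/
def Approximable (D : Set E) : Prop :=
  ∃ Φ : ℕ → E → ℝ, (∀ j, SmoothLC (Φ j)) ∧
    (∀ j, closure {z | Φ j z < 0} ⊆ {z | Φ (j + 1) z < 0}) ∧
    ⋃ j, {z | Φ j z < 0} = D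

end General

/-- squared Euclidean norm on `ℂ^n` -/
noncomputable def nsq {n : ℕ} (x : Fin n → ℂ) : ℝ := ∑ i, ‖x i‖ ^ 2

/-- the bilinear square `x • x = ∑ x_i ^ 2` -/
noncomputable def bsq {n : ℕ} (x : Fin n → ℂ) : ℂ := ∑ i, x i ^ 2

/-- the `2 × 2` matrix `A` has Euclidean operator norm `< 1` -/
def StrictContraction (A : Matrix (Fin 2) (Fin 2) ℂ) : Prop :=
  ∀ v : Fin 2 → ℂ, v ≠ 0 → nsq (A.mulVec v) < nsq v

/-- the tetrablock `{(a₁₁, a₂₂, det A) : ‖A‖ < 1}` -/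
def tetrablock : Set (ℂ × ℂ × ℂ) :=
  {x | ∃ A, StrictContraction A ∧ x = (A 0 0, A 1 1, A.det)}

/-- the pentablock `{(a₂₁, tr A, det A) : ‖A‖ < 1}` -/
def pentablock : Set (ℂ × ℂ × ℂ) :=
  {x | ∃ A, StrictContraction A ∧ x = (A 1 0, A.trace, A.det)}

/-- the hexablock: `(a, x)` with `x` in the tetrablock and
`sup |a √((1-|z|²)(1-|w|²)) / (1 - x₁ z - x₂ w + x₃ z w)| < 1` over the open bidisc -/
def hexablock : Set (ℂ × ℂ × ℂ × ℂ) :=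
  {y | y.2 ∈ tetrablock ∧ ∃ ρ : ℝ, ρ < 1 ∧ ∀ z w : ℂ, ‖z‖ < 1 → ‖w‖ < 1 →
    ‖y.1 * (√((1 - ‖z‖ ^ 2) * (1 - ‖w‖ ^ 2)) : ℝ) /
      (1 - y.2.1 * z - y.2.2.1 * w + y.2.2.2 * z * w)‖ ≤ ρ}

/-- the Lie ball (Cartan domain of type IV) in `ℂ^n` -/
def lieBall (n : ℕ) : Set (Fin n → ℂ) :=
  {z | ‖bsq z‖ < 1 ∧ 2 * nsq z < 1 + ‖bsq z‖ ^ 2}

/-- the image of the Lie ball of `ℂ^(m+1)` under the `2`-proper map
`(z₀, …, z_m) ↦ ((z₁, …, z_m), z₀² + ⋯ + z_m²)` -/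
def lieQuot (m : ℕ) : Set ((Fin m → ℂ) × ℂ) :=
  (fun z : Fin (m + 1) → ℂ => (Fin.tail z, bsq z)) '' lieBall (m + 1)

/-- `h(x,p) = 1 + |p|² - 2 |x|²` -/
noncomputable def hh {m : ℕ} (x : Fin m → ℂ) (p : ℂ) : ℝ := 1 + ‖p‖ ^ 2 - 2 * nsq x

/-- `r(x,p) = √(h² - 4 |x • x - p|²)` -/
noncomputable def rr {m : ℕ} (x : Fin m → ℂ) (p : ℂ) : ℝ :=
  √(hh x p ^ 2 - 4 * ‖bsq x - p‖ ^ 2)

/-- Hartogs domain with ball fibres over `lieQuot m`: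
`(a, x, p)` with `(x, p) ∈ lieQuot m` and `|a|² < (h + r) / 2` -/
def hartogs (k m : ℕ) : Set ((Fin k → ℂ) × (Fin m → ℂ) × ℂ) :=
  {z | z.2 ∈ lieQuot m ∧ nsq z.1 < (hh z.2.1 z.2.2 + rr z.2.1 z.2.2) / 2}

end Pool.Agent.MP_4baaa2_an
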